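import Pool.Agent.H772R3.JordanSemi

set_option autoImplicit false

/-!
Over every field `F` (of any characteristic) there is a semiprime Jordan algebra with a unit that
has an ideal which is not semiprime as a ring.

The algebra is `F ⊕ V ⊕ (Λ(V) ⊗ L)`, where `V` has an orthonormal basis `ξ 0, ξ 1, ...`, `Λ(V)` is
its exterior algebra and `L` is the three-dimensional cross product algebra. A vector `v` acts on the
even part of `Λ(V) ⊗ L` by exterior multiplication and on the odd part by contraction; two odd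
elements are multiplied in `Λ(V) ⊗ L`, and all other products inside `Λ(V) ⊗ L` are zero. The ideal is
`I = Λ(V) ⊗ L`, and its even part is a nonzero ideal of the ring `I` with zero multiplication.
-/

namespace Pool.Agent.Results.MP_75529e_al.IdealNotSemiprime

open Pool.Agent.H772R3.JordanModel Pool.Agent.H772R3.JordanData Pool.Agent.H772R3.Ext

universe u

section Defs

variable (R : Type u) [NonUnitalNonAssocRing R]

/-- `R` is a Jordan ring: `xy = yx` and `(x²y)x = x²(yx)`. -/
def IsJordanRing : Prop :=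
  (∀ x y : R, x * y = y * x) ∧ ∀ x y : R, ((x * x) * y) * x = (x * x) * (y * x)

variable {R}

/-- `I` is an ideal of `R`. -/
def IsIdeal (I : AddSubgroup R) : Prop := ∀ r : R, ∀ x ∈ I, r * x ∈ I ∧ x * r ∈ I

/-- `K` is an ideal of the ring `I`. -/
def IsIdealOf (K I : AddSubgroup R) : Prop := K ≤ I ∧ ∀ r ∈ I, ∀ x ∈ K, r * x ∈ K ∧ x * r ∈ K

/-- The additive subgroup generated by all products `a * b`, `a, b ∈ K`. -/
def square (K : AddSubgroup R) : AddSubgroup R :=
  AddSubgroup.closure {z | ∃ a ∈ K, ∃ b ∈ K, z = a * b}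

variable (R)

/-- The ring `R` is semiprime: no nonzero ideal has square zero. -/
def IsSemiprime : Prop := ∀ K : AddSubgroup R, IsIdeal K → square K = ⊥ → K = ⊥

variable {R}

/-- The ideal `I`, as a ring, is semiprime. -/
def IsSemiprimeAsRing (I : AddSubgroup R) : Prop :=
  ∀ K : AddSubgroup R, IsIdealOf K I → square K = ⊥ → K = ⊥

end Defs

variable {F : Type u} [Field F]

/-- The ideal `Λ(V) ⊗ L`. -/
def II (F : Type u) [Field F] : AddSubgroup (JJ F) where
  carrier := {x | x.r = 0 ∧ x.v = 0}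
  add_mem' := by
    rintro x y ⟨h1, h2⟩ ⟨h3, h4⟩
    exact ⟨by rw [J.add_def, h1, h3, add_zero], by rw [J.add_def, h2, h4, add_zero]⟩
  zero_mem' := ⟨rfl, rfl⟩
  neg_mem' := by
    rintro x ⟨h1, h2⟩
    have e1 : (-x).r = -x.r := rfl
    have e2 : (-x).v = -x.v := rfl
    exact ⟨by rw [e1, h1, neg_zero], by rw [e2, h2, neg_zero]⟩

/-- The even part of the ideal. -/
def KK (F : Type u) [Field F] : AddSubgroup (JJ F) where
  carrier := {x | x.r = 0 ∧ x.v = 0 ∧ x.b = 0}
  add_mem' := by
    rintro x y ⟨h1, h2, h3⟩ ⟨h4, h5, h6⟩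
    exact ⟨by rw [J.add_def, h1, h4, add_zero], by rw [J.add_def, h2, h5, add_zero],
      by rw [J.add_def, h3, h6, add_zero]⟩
  zero_mem' := ⟨rfl, rfl, rfl⟩
  neg_mem' := by
    rintro x ⟨h1, h2, h3⟩
    have e1 : (-x).r = -x.r := rfl
    have e2 : (-x).v = -x.v := rfl
    have e3 : (-x).b = -x.b := rfl
    exact ⟨by rw [e1, h1, neg_zero], by rw [e2, h2, neg_zero], by rw [e3, h3, neg_zero]⟩

theorem result (F : Type u) [Field F] :
    ∃ (R : Type u) (_ : NonUnitalNonAssocRing R) (_ : Module F R),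
      IsScalarTower F R R ∧ SMulCommClass F R R ∧ IsJordanRing R ∧
      (∃ e : R, ∀ x : R, e * x = x) ∧ IsSemiprime R ∧
      ∃ I : AddSubgroup R, IsIdeal I ∧ ¬ IsSemiprimeAsRing I := by
  refine ⟨JJ F, inferInstance, inferInstance, inferInstance, inferInstance,
    ⟨J.mul_comm', J.jordan⟩, ⟨⟨1, 0, 0, 0⟩, fun x => ?_⟩, ?_, II F, ?_, ?_⟩
  · simp [J.mul_def]
  · intro K hK hsq
    refine semiprime K hK fun x hx y hy => ?_
    have : x * y ∈ square K := AddSubgroup.subset_closure ⟨x, hx, y, hy, rfl⟩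
    rw [hsq] at this
    exact this
  · rintro r x ⟨h1, h2⟩
    have h : r * x ∈ II F := by
      refine ⟨?_, ?_⟩
      · rw [J.mul_def]; simp [h1, h2]
      · rw [J.mul_def]; simp [h1, h2]
    exact ⟨h, by rw [J.mul_comm']; exact h⟩
  · intro h
    have hKI : ∀ r ∈ II F, ∀ x ∈ KK F, r * x = 0 := by
      rintro r ⟨h1, h2⟩ x ⟨h3, h4, h5⟩
      rw [J.mul_def, h1, h2, h3, h4, h5]
      simp [J.zero_def]
    have h1 := h (KK F) ⟨fun x hx => ⟨hx.1, hx.2.1⟩, fun r hr x hx => ?_⟩ ?_
    · let c : I0 F := fun _ => ⟨1, by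
        have := algebraMap_even (F := F) (V := V F) 1
        rwa [map_one] at this⟩
      have h2 : ev c ∈ KK F := ⟨rfl, rfl, rfl⟩
      rw [h1, AddSubgroup.mem_bot] at h2
      have h3 := congrArg (fun x : JJ F => ((x.a 0 : E0 F (V F)) : Λ F (V F))) h2
      exact one_ne_zero h3
    · have e1 := hKI r hr x hx
      have e2 : x * r = 0 := by rw [J.mul_comm']; exact e1
      rw [e1, e2]
      exact ⟨AddSubgroup.zero_mem _, AddSubgroup.zero_mem _⟩
    · rw [square, eq_bot_iff, AddSubgroup.closure_le]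
      rintro _ ⟨a, ha, b, hb, rfl⟩
      rw [hKI a ⟨ha.1, ha.2.1⟩ b hb]
      exact AddSubgroup.zero_mem _

end Pool.Agent.Results.MP_75529e_al.IdealNotSemiprime
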